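import Pool.Agent.H30.LT.Targets

/-!
# Module GE5 of the board `al_modules` (MP_70ba79_ag): specialisation of the coefficients
-/

set_option autoImplicit false

namespace Pool.Agent.H56.LT.GE5

open MvPolynomial SC Pool.Agent.H27.LV Pool.Agent.H30.AV Pool.Agent.H30.AW Pool.Agent.H30.AX
  Pool.Agent.H30.LT

theorem pf_GE5 (hGE2 : T_GE2) : T_GE5 := by
  intro k _ _ n q q0 m P Θ hP htr hq
  obtain ⟨Δ, hΔ, h⟩ := hGE2 k n q q0 m P (rename Sum.inl Θ) hP htr hq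
  refine ⟨Δ, hΔ, fun a ha K _ _ γ hγ hμ => ?_⟩
  obtain ⟨μ, hμ⟩ := hμ
  obtain ⟨I, b, hI, hne⟩ := h a ha K γ hγ ⟨μ.mapDomain Sum.inl, by
    rwa [coeff_rename_mapDomain _ Sum.inl_injective]⟩
  refine ⟨I, hI, ?_⟩
  have he : spw (fun i => a (I i)) b (rename Sum.inl Θ) = spa (fun i => a (I i)) Θ := by
    unfold spw spa
    rw [eval_rename]
    rfl
  rwa [he] at hne

end Pool.Agent.H56.LT.GE5
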